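import Pool.Agent.TH502.RM.GCheck2
import Pool.Agent.W478R.Old

set_option autoImplicit false

/-!
# Book cells with parameters which are good at both ends of a density interval

`kk_convex`: the cost `KK q T` of a soft tilt is convex in the density `q`, so the local game of
`PK2` is won on a whole segment of densities as soon as it is won at both ends with the same
parameters (`pk2_convex`). `book_excl` turns this into the exclusion of all densities of an interval.
-/

open Finset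

namespace Pool.Agent.Run7.h214

open H110R2 W478R Pool.Agent.TH428.RM

/-- tangent inequality for `x log (x / y)` -/
lemma xlog_tangent {x y c : ℝ} (hx : 0 < x) (hy : 0 < y) (hc : 0 < c) :
    x * Real.log c + x - c * y ≤ x * Real.log (x / y) := by
  have h := Real.one_sub_inv_le_log_of_pos (show 0 < x / y / c by positivity)
  rw [Real.log_div (by positivity) hc.ne', inv_div] at h
  have h2 : c / (x / y) = c * y / x := by field_simp
  rw [h2] at h
  have h3 := mul_le_mul_of_nonneg_left h hx.le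
  have h4 : x * (1 - c * y / x) = x - c * y := by field_simp
  rw [h4] at h3
  linarith

/-- joint convexity of `x log (x / y)` -/
lemma xlog_convex {x1 x2 y1 y2 s t : ℝ} (hx1 : 0 < x1) (hx2 : 0 < x2) (hy1 : 0 < y1) (hy2 : 0 < y2)
    (hs : 0 ≤ s) (ht : 0 ≤ t) (hst : s + t = 1) :
    (s * x1 + t * x2) * Real.log ((s * x1 + t * x2) / (s * y1 + t * y2))
      ≤ s * (x1 * Real.log (x1 / y1)) + t * (x2 * Real.log (x2 / y2)) := by
  have pos : ∀ a b : ℝ, 0 < a → 0 < b → 0 < s * a + t * b := by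
    intro a b ha hb
    rcases eq_or_lt_of_le hs with h | h
    · rw [← h] at hst ⊢
      have : t = 1 := by linarith
      rw [this]; simpa using hb
    · have := mul_pos h ha
      have := mul_nonneg ht hb.le
      linarith
  have hX := pos _ _ hx1 hx2
  have hY := pos _ _ hy1 hy2
  have hc : 0 < (s * x1 + t * x2) / (s * y1 + t * y2) := div_pos hX hY
  set c := (s * x1 + t * x2) / (s * y1 + t * y2) with hcdef
  have h1 := mul_le_mul_of_nonneg_left (xlog_tangent hx1 hy1 hc) hs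
  have h2 := mul_le_mul_of_nonneg_left (xlog_tangent hx2 hy2 hc) ht
  have h3 : c * (s * y1 + t * y2) = s * x1 + t * x2 := by
    rw [hcdef]; field_simp
  nlinarith

/-- `KK` is convex in the density -/
lemma kk_convex {q1 q2 T s t : ℝ} (h1 : 0 < q1) (h2 : 0 < q2) (hT0 : 0 < T)
    (hT1 : T < 1) (h11 : q1 < 1) (h21 : q2 < 1) (hs : 0 ≤ s) (ht : 0 ≤ t) (hst : s + t = 1) :
    KK (s * q1 + t * q2) T ≤ s * KK q1 T + t * KK q2 T := by
  unfold KK
  have e1 : s * q1 + t * q2 + (1 - (s * q1 + t * q2)) * T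
      = s * (q1 + (1 - q1) * T) + t * (q2 + (1 - q2) * T) := by
    have : T = (s + t) * T := by rw [hst, one_mul]
    nlinarith
  have e2 : (1 - (s * q1 + t * q2)) * (1 - T) * Real.log (1 - T)
      = s * ((1 - q1) * (1 - T) * Real.log (1 - T)) + t * ((1 - q2) * (1 - T) * Real.log (1 - T)) := by
    have : (1 - (s * q1 + t * q2)) = s * (1 - q1) + t * (1 - q2) := by
      linear_combination (-1) * hst
    rw [this]; ring
  rw [e1, e2]
  have p1 : 0 < q1 + (1 - q1) * T := by
    have := mul_pos (show 0 < 1 - q1 by linarith) hT0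
    linarith
  have p2 : 0 < q2 + (1 - q2) * T := by
    have := mul_pos (show 0 < 1 - q2 by linarith) hT0
    linarith
  have := xlog_convex p1 p2 h1 h2 hs ht hst
  linarith

/-- convexity of `log (1 / p)` -/
lemma logi_convex {p1 p2 s t : ℝ} (h1 : 0 < p1) (h2 : 0 < p2) (hs : 0 ≤ s) (ht : 0 ≤ t)
    (hst : s + t = 1) :
    Real.log (1 / (s * p1 + t * p2)) ≤ s * Real.log (1 / p1) + t * Real.log (1 / p2) := by
  have h := strictConcaveOn_log_Ioi.concaveOn.2 (Set.mem_Ioi.mpr h1) (Set.mem_Ioi.mpr h2) hs ht hst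
  simp only [smul_eq_mul] at h
  rw [one_div, one_div, one_div, Real.log_inv, Real.log_inv, Real.log_inv]
  linarith

lemma exp_conv {x y z s t : ℝ} (hs : 0 ≤ s) (ht : 0 ≤ t) (hst : s + t = 1) (h : z ≤ s * x + t * y) :
    Real.exp z ≤ s * Real.exp x + t * Real.exp y := by
  refine (Real.exp_le_exp.mpr h).trans ?_
  have := convexOn_exp.2 (Set.mem_univ x) (Set.mem_univ y) hs ht hst
  simpa [smul_eq_mul] using this

lemma lt_conv {a b c s t : ℝ} (ha : c < a) (hb : c < b) (hs : 0 ≤ s) (ht : 0 ≤ t)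
    (hst : s + t = 1) : c < s * a + t * b := by
  rcases eq_or_lt_of_le hs with h | h
  · have : t = 1 := by linarith
    rw [← h, this]; linarith
  · have h1 := mul_lt_mul_of_pos_left ha h
    have h2 := mul_le_mul_of_nonneg_left hb.le ht
    have : c = s * c + t * c := by rw [← add_mul, hst, one_mul]
    linarith

lemma conv_lt {a b c s t : ℝ} (ha : a < c) (hb : b < c) (hs : 0 ≤ s) (ht : 0 ≤ t)
    (hst : s + t = 1) : s * a + t * b < c := by
  have := lt_conv (neg_lt_neg ha) (neg_lt_neg hb) hs ht hst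
  linarith

/-- The local game is won on the whole segment between two pairs of densities. -/
theorem pk2_convex {T1 T2 wR wB g0 dl B0 b1 b2 A W pa qa pb qb s t : ℝ} (hwR : 0 ≤ wR)
    (hwB : 0 ≤ wB) (hT10 : 0 < T1) (hT11 : T1 < 1) (hT20 : 0 < T2) (hT21 : T2 < 1)
    (h1 : PK2 T1 T2 wR wB g0 dl B0 pa qa b1 b2 A W) (h2 : PK2 T1 T2 wR wB g0 dl B0 pb qb b1 b2 A W)
    (hs : 0 ≤ s) (ht : 0 ≤ t) (hst : s + t = 1) :
    PK2 T1 T2 wR wB g0 dl B0 (s * pa + t * pb) (s * qa + t * qb) b1 b2 A W where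
  hp1 := lt_conv h1.hp1 h2.hp1 hs ht hst
  hp1' := conv_lt h1.hp1' h2.hp1' hs ht hst
  hp2 := lt_conv h1.hp2 h2.hp2 hs ht hst
  hp2' := conv_lt h1.hp2' h2.hp2' hs ht hst
  hb1 := h1.hb1
  hb2 := h1.hb2
  hA := h1.hA
  hW := h1.hW
  hB1 := by
    have e1 := mul_le_mul_of_nonneg_left h1.hB1 hs
    have e2 := mul_le_mul_of_nonneg_left h2.hB1 ht
    have e3 : b1 * (1 - (s * pa + t * pb)) = s * (b1 * (1 - pa)) + t * (b1 * (1 - pb)) := by
      have : (1 : ℝ) = s + t := hst.symm
      calc b1 * (1 - (s * pa + t * pb)) = b1 * ((s + t) - (s * pa + t * pb)) := by rw [← this]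
        _ = _ := by ring
    rw [e3]
    linarith
  hB2 := by
    have e1 := mul_le_mul_of_nonneg_left h1.hB2 hs
    have e2 := mul_le_mul_of_nonneg_left h2.hB2 ht
    have e3 : b2 * (1 - (s * qa + t * qb)) = s * (b2 * (1 - qa)) + t * (b2 * (1 - qb)) := by
      have : (1 : ℝ) = s + t := hst.symm
      calc b2 * (1 - (s * qa + t * qb)) = b2 * ((s + t) - (s * qa + t * qb)) := by rw [← this]
        _ = _ := by ring
    rw [e3]
    linarith
  hwin := by
    have pa0 : 0 < pa := by have := h1.hp1; linarith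
    have pb0 : 0 < pb := by have := h2.hp1; linarith
    have qa0 : 0 < qa := by have := h1.hp2; linarith
    have qb0 : 0 < qb := by have := h2.hp2; linarith
    have k1 := kk_convex qa0 qb0 hT20 hT21 h1.hp2' h2.hp2' hs ht hst
    have k2 := kk_convex pa0 pb0 hT10 hT11 h1.hp1' h2.hp1' hs ht hst
    have l1 := logi_convex pa0 pb0 hs ht hst
    have l2 := logi_convex qa0 qb0 hs ht hst
    have e1 : Real.exp (-A + b1 * Real.log (1 / (s * pa + t * pb)) + b2 * KK (s * qa + t * qb) T2)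
        ≤ s * Real.exp (-A + b1 * Real.log (1 / pa) + b2 * KK qa T2)
          + t * Real.exp (-A + b1 * Real.log (1 / pb) + b2 * KK qb T2) := by
      apply exp_conv hs ht hst
      have m1 := mul_le_mul_of_nonneg_left l1 h1.hb1.le
      have m2 := mul_le_mul_of_nonneg_left k1 h1.hb2.le
      have : A = s * A + t * A := by rw [← add_mul, hst, one_mul]
      nlinarith
    have e2 : Real.exp (-W + b2 * Real.log (1 / (s * qa + t * qb)) + b1 * KK (s * pa + t * pb) T1)
        ≤ s * Real.exp (-W + b2 * Real.log (1 / qa) + b1 * KK pa T1)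
          + t * Real.exp (-W + b2 * Real.log (1 / qb) + b1 * KK pb T1) := by
      apply exp_conv hs ht hst
      have m1 := mul_le_mul_of_nonneg_left l2 h1.hb2.le
      have m2 := mul_le_mul_of_nonneg_left k2 h1.hb1.le
      have : W = s * W + t * W := by rw [← add_mul, hst, one_mul]
      nlinarith
    have f1 := mul_le_mul_of_nonneg_left e1 hwR
    have f2 := mul_le_mul_of_nonneg_left e2 hwB
    have h := conv_lt h1.hwin h2.hwin hs ht hst
    have : 2 * dl * C8c B0 = s * (2 * dl * C8c B0) + t * (2 * dl * C8c B0) := by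
      rw [← add_mul, hst, one_mul]
    linarith

/-- the exclusion of a set of densities: `σ` is the tolerance of the degrees -/
def Excl (cl : List (ℕ × ℕ)) (P : ℝ × ℝ) (Dd : ℝ → Prop) (Q : ℕ → ℕ → Prop) (σ ε : ℝ) (C : ℝ) :
    Prop :=
  ∀ k l : ℕ, 0 < k → Q k l → ∀ (V : Type) [DecidableEq V] (G : SimpleGraph V) (S : Finset V),
    NoCl G k S → NoCl Gᶜ l S → ε * (C * Real.exp (P.1 * k + P.2 * l)) ≤ S.card →
    ∀ d : ℝ, Dd d →
      (∀ x ∈ S, (d - σ) * S.card ≤ ((Pool.Agent.H111R2.nb G x S).card : ℝ)) →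
      (∀ x ∈ S, (1 - d - σ) * S.card ≤ ((Pool.Agent.H111R2.nb Gᶜ x S).card : ℝ)) →
      Pool.Agent.H111R2.Lines cl C G S k l → False

/-- a reservoir bound from the lines -/
lemma dom_bound {cl : List (ℕ × ℕ)} {b A B C : ℝ} (hb : 0 < b) (hC : 0 < C)
    (hD : Dom (cl.map (rl 1000000000)) b A B) {V : Type} (Z : Finset V) (hZ : Z.Nonempty) {a l : ℕ}
    (h : ∀ g ∈ cl, ∀ s : Bool,
      (Z.card : ℝ) ≤ C * Real.exp (lv (sw s (rl 1000000000 g)) a l)) :
    b * Real.log Z.card ≤ b * Real.log C + A * a + B * l := by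
  obtain ⟨L1, h1, L2, h2, s1, s2, t, ht0, ht1, hA, hB⟩ := hD
  obtain ⟨g1, hg1, rfl⟩ := List.mem_map.mp h1
  obtain ⟨g2, hg2, rfl⟩ := List.mem_map.mp h2
  have hZpos : (0 : ℝ) < Z.card := by exact_mod_cast hZ.card_pos
  have hl : ∀ g ∈ cl, ∀ s : Bool,
      Real.log Z.card ≤ Real.log C + lv (sw s (rl 1000000000 g)) a l := by
    intro g hg s
    have := Real.log_le_log hZpos (h g hg s)
    rwa [Real.log_mul hC.ne' (Real.exp_pos _).ne', Real.log_exp] at this
  have k1 := hl g1 hg1 s1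
  have k2 := hl g2 hg2 s2
  generalize rl 1000000000 g1 = R1 at *
  generalize rl 1000000000 g2 = R2 at *
  have k3 : Real.log Z.card ≤ Real.log C + (t * lv (sw s1 R1) a l + (1 - t) * lv (sw s2 R2) a l) := by
    nlinarith
  have k4 := mul_le_mul_of_nonneg_left k3 hb.le
  have ha0 : (0 : ℝ) ≤ a := Nat.cast_nonneg _
  have hl0 : (0 : ℝ) ≤ l := Nat.cast_nonneg _
  have m1 := mul_le_mul_of_nonneg_right hA ha0
  have m2 := mul_le_mul_of_nonneg_right hB hl0
  unfold lv at k4
  nlinarith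

/-- **Exclusion by the two-reservoir book theorem.** -/
theorem book_excl (hT : TBookThm2) {T1 T2 wR wB g0 a1 a2 : ℝ} {Pm : List (ℝ × ℕ × ℕ)} {dl B0 : ℝ}
    (hcert : Cert2 T1 T2 wR wB g0 a1 a2 Pm dl) {b1 b2 A B W A2 : ℝ} {a h : ℕ} (hah : a ≤ h)
    (h1 : PK2 T1 T2 wR wB g0 dl B0 (((a : ℝ) - 1) / 1000000000) (1 - ((a : ℝ) + 1) / 1000000000)
      b1 b2 A W)
    (h2 : PK2 T1 T2 wR wB g0 dl B0 (((h : ℝ) - 1) / 1000000000) (1 - ((h : ℝ) + 1) / 1000000000)
      b1 b2 A W)
    {cl : List (ℕ × ℕ)} {P : ℝ × ℝ} {Q : ℕ → ℕ → Prop}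
    (hD1 : Dom (cl.map (rl 1000000000)) b1 A B) (hD2 : Dom (cl.map (rl 1000000000)) b2 A2 W)
    (hsl : ∀ k l : ℕ, 0 < k → Q k l → (A + A2) * k + (W + B) * l ≤ (1 + b1 + b2) * (P.1 * k + P.2 * l))
    (ε : ℝ) (hε : 0 < ε) :
    ∀ᶠ C : ℝ in Filter.atTop,
      Excl cl P (fun d => (a : ℝ) / 1000000000 ≤ d ∧ d ≤ (h : ℝ) / 1000000000) Q
        (1 / 4000000000) ε C := by
  -- the grid
  obtain ⟨J, hJ⟩ : ∃ J : ℕ, J = 4 * (h - a) := ⟨_, rfl⟩
  have hJr : (J : ℝ) = 4 * ((h : ℝ) - a) := by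
    rw [hJ]; push_cast [Nat.cast_sub hah]; ring
  have hgame : ∀ j ∈ Finset.range (J + 1), ∃ c : ℝ, ∀ (V : Type) [DecidableEq V] (G : SimpleGraph V)
      (k l : ℕ) (LM1 LM2 : ℝ) (X Y1 Y2 : Finset V), X.Nonempty → Y1.Nonempty → Y2.Nonempty →
      NoCl G k (X ∪ Y1) → NoCl Gᶜ l (X ∪ Y2) →
      (∀ a ≤ k, ∀ Z ⊆ Y1, Z.Nonempty → NoCl G a Z → b1 * Real.log Z.card ≤ LM1 + A * a) →
      (∀ t ≤ l, ∀ Z ⊆ Y2, Z.Nonempty → NoCl Gᶜ t Z → b2 * Real.log Z.card ≤ LM2 + W * t) →
      (∀ x ∈ X, (((a : ℝ) - 1 + j / 4) / 1000000000 + 1 / 4000000000) * Y1.card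
        ≤ ((H110R2.nb G x Y1).card : ℝ)) →
      (∀ x ∈ X, ((1 - ((a : ℝ) + 1 + j / 4) / 1000000000) + 1 / 4000000000) * Y2.card
        ≤ ((H110R2.nb Gᶜ x Y2).card : ℝ)) →
      Real.log X.card + b1 * Real.log Y1.card + b2 * Real.log Y2.card
        ≤ c + LM1 + LM2 + A * k + W * l := by
    intro j hj
    have hjJ : (j : ℝ) ≤ J := by
      have := Finset.mem_range.mp hj
      exact_mod_cast (by omega : j ≤ J)
    have hj0 : (0 : ℝ) ≤ j := Nat.cast_nonneg _
    obtain ⟨s, t, hs, ht, hst, hp⟩ : ∃ s t : ℝ, 0 ≤ s ∧ 0 ≤ t ∧ s + t = 1 ∧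
        s * (a : ℝ) + t * h = a + j / 4 := by
      rcases Nat.eq_zero_or_pos J with h0 | h0
      · refine ⟨1, 0, by norm_num, le_rfl, by norm_num, ?_⟩
        rw [h0] at hjJ
        have : (j : ℝ) = 0 := by
          push_cast at hjJ
          linarith
        rw [this]; ring
      · have hJ0 : (0 : ℝ) < J := by exact_mod_cast h0
        refine ⟨1 - j / J, j / J, ?_, by positivity, by ring, ?_⟩
        · rw [sub_nonneg, div_le_one hJ0]; exact hjJ
        · have : (h : ℝ) = a + J / 4 := by rw [hJr]; ring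
          rw [this]
          field_simp
          ring
    have hpk := pk2_convex hcert.hwR hcert.hwB hcert.hT10 hcert.hT11 hcert.hT20 hcert.hT21 h1 h2
      hs ht hst
    have e1 : s * (((a : ℝ) - 1) / 1000000000) + t * (((h : ℝ) - 1) / 1000000000)
        = ((a : ℝ) - 1 + j / 4) / 1000000000 := by
      have : s * (((a : ℝ) - 1) / 1000000000) + t * (((h : ℝ) - 1) / 1000000000)
          = ((s * (a : ℝ) + t * h) - (s + t)) / 1000000000 := by ring
      rw [this, hp, hst]; ring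
    have e2 : s * (1 - ((a : ℝ) + 1) / 1000000000) + t * (1 - ((h : ℝ) + 1) / 1000000000)
        = 1 - ((a : ℝ) + 1 + j / 4) / 1000000000 := by
      have : s * (1 - ((a : ℝ) + 1) / 1000000000) + t * (1 - ((h : ℝ) + 1) / 1000000000)
          = (s + t) - ((s * (a : ℝ) + t * h) + (s + t)) / 1000000000 := by ring
      rw [this, hp, hst]; ring
    rw [e1, e2] at hpk
    have hTB := hT _ _ _ _ _ _ _ _ _ _ _ _ _ _ _ _ hcert hpk
    obtain ⟨c, hc⟩ := hTB (1 / 4000000000) (by norm_num)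
    exact ⟨c, fun V _ G k l => hc V G k l⟩
  choose! c hc using hgame
  obtain ⟨cm, hcm⟩ : ∃ cm : ℝ, ∀ j ∈ Finset.range (J + 1), c j ≤ cm := by
    refine ⟨∑ j ∈ Finset.range (J + 1), |c j|, fun j hj => ?_⟩
    exact (le_abs_self _).trans (Finset.single_le_sum (f := fun j => |c j|)
      (fun i _ => abs_nonneg _) hj)
  have hb1 := h1.hb1
  have hb2 := h1.hb2
  have hlogt : ∀ᶠ C : ℝ in Filter.atTop, cm - (1 + b1 + b2) * Real.log ε < Real.log C :=
    Real.tendsto_log_atTop.eventually_gt_atTop _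
  filter_upwards [hlogt, Filter.eventually_ge_atTop (1 : ℝ)] with C hCl hC1
  intro k l hk hQ V _ G S hSk hSl hcard d hd hdR hdB hLines
  have hC0 : 0 < C := by linarith
  obtain ⟨E, hE⟩ : ∃ E, E = P.1 * (k : ℝ) + P.2 * l := ⟨_, rfl⟩
  rw [← hE] at hcard
  have hSpos : (0 : ℝ) < S.card := lt_of_lt_of_le (by positivity) hcard
  have hSne : S.Nonempty := by rw [← Finset.card_pos]; exact_mod_cast hSpos
  have hlogS : Real.log ε + (Real.log C + E) ≤ Real.log S.card := by
    have h5 := Real.log_le_log (by positivity) hcard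
    rwa [Real.log_mul hε.ne' (by positivity), Real.log_mul hC0.ne' (Real.exp_pos _).ne',
      Real.log_exp] at h5
  -- the index of `d`
  obtain ⟨hd1, hd2⟩ := hd
  have hd1' : 0 ≤ 4 * (1000000000 * d - a) := by
    rw [div_le_iff₀ (by norm_num)] at hd1
    linarith
  have hd2' : 4 * (1000000000 * d - a) ≤ J := by
    rw [le_div_iff₀ (by norm_num)] at hd2
    rw [hJr]
    linarith
  obtain ⟨j, hjdef⟩ : ∃ j : ℕ, j = ⌊4 * (1000000000 * d - a)⌋₊ := ⟨_, rfl⟩
  have hj1 : (j : ℝ) ≤ 4 * (1000000000 * d - a) := by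
    rw [hjdef]; exact Nat.floor_le hd1'
  have hj2 : 4 * (1000000000 * d - a) < j + 1 := by
    rw [hjdef]; exact Nat.lt_floor_add_one _
  have hjJ : j ∈ Finset.range (J + 1) := by
    rw [Finset.mem_range]
    have : (j : ℝ) ≤ J := hj1.trans hd2'
    have : j ≤ J := by exact_mod_cast this
    omega
  have hL1 : ∀ g ∈ cl, ∀ s : Bool, ∀ a ≤ k, ∀ Z ⊆ S, NoCl G a Z →
      (Z.card : ℝ) ≤ C * Real.exp (lv (sw s (rl 1000000000 g)) a l) := by
    intro g hg s a' ha' Z hZ hZa
    have hh := (hLines g hg).1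
    cases s
    · have := hh.1 a' ha' Z hZ (fun t ht => hZa t ht)
      refine this.trans_eq ?_
      unfold lv sw rl
      simp only [Bool.false_eq_true, if_false]
      push_cast
      congr 2
      ring
    · have := hh.2 a' ha' Z hZ (fun t ht => hZa t ht)
      refine this.trans_eq ?_
      unfold lv sw rl
      simp only [if_true, Prod.swap]
      push_cast
      congr 2
      ring
  have hL2 : ∀ g ∈ cl, ∀ s : Bool, ∀ a ≤ l, ∀ Z ⊆ S, NoCl Gᶜ a Z →
      (Z.card : ℝ) ≤ C * Real.exp (lv (sw s (rl 1000000000 g)) k a) := by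
    intro g hg s a' ha' Z hZ hZa
    have hh := (hLines g hg).2
    cases s
    · have := hh.1 a' ha' Z hZ (fun t ht => hZa t ht)
      refine this.trans_eq ?_
      unfold lv sw rl
      simp only [Bool.false_eq_true, if_false]
      push_cast
      congr 2
      ring
    · have := hh.2 a' ha' Z hZ (fun t ht => hZa t ht)
      refine this.trans_eq ?_
      unfold lv sw rl
      simp only [if_true, Prod.swap]
      push_cast
      congr 2
      ring
  have hfin := hc j hjJ V G k l (b1 * Real.log C + B * l) (b2 * Real.log C + A2 * k) S S S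
    hSne hSne hSne (by rw [Finset.union_self]; exact hSk) (by rw [Finset.union_self]; exact hSl)
    (by
      intro a' ha' Z hZ hZne hZa
      have := dom_bound (a := a') (l := l) hb1 hC0 hD1 Z hZne
        (fun g hg s => hL1 g hg s a' ha' Z hZ hZa)
      linarith)
    (by
      intro a' ha' Z hZ hZne hZa
      have := dom_bound (a := k) (l := a') hb2 hC0 hD2 Z hZne
        (fun g hg s => hL2 g hg s a' ha' Z hZ hZa)
      linarith)
    (by
      intro x hx
      refine le_trans ?_ (hdR x hx)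
      apply mul_le_mul_of_nonneg_right _ hSpos.le
      linarith)
    (by
      intro x hx
      refine le_trans ?_ (hdB x hx)
      apply mul_le_mul_of_nonneg_right _ hSpos.le
      linarith)
  have hsl' := hsl k l hk hQ
  rw [← hE] at hsl'
  have hcj := hcm j hjJ
  have h7 : (1 + b1 + b2) * (Real.log ε + (Real.log C + E)) ≤ (1 + b1 + b2) * Real.log S.card :=
    mul_le_mul_of_nonneg_left hlogS (by linarith)
  nlinarith

end Pool.Agent.Run7.h214
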