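import Pool.Agent.Run7.h214.Book

set_option autoImplicit false

/-!
# Rows of stage chains and book cells on top of a black-box family of lines

The step for a line `L` of the family `Ls`: a counterexample is truncated and regularised, then every
density is excluded by a chain of stages (`Pool.Agent.H111R2.Ival3`) or by a book cell.
-/

open Finset

namespace Pool.Agent.Run7.h214

open H110R2 W478R Pool.Agent.TH428.RM TH502.RM

lemma StepC.mono {C1 C2 : ℝ} (h12 : C1 ≤ C2) {Ls : List (ℝ × ℝ)} {L : ℝ × ℝ}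
    (h : StepC C1 Ls L) : StepC C2 Ls L := by
  obtain ⟨k0, hk0⟩ := h
  exact ⟨k0, fun C hC hC2 => hk0 C hC (h12.trans hC2)⟩

lemma cone_lo {L lo : ℕ × ℕ} {clo k l : ℕ} (h1 : lo.1 ≤ L.1) (h2 : L.2 < lo.2)
    (h3 : clo * (lo.2 - L.2) ≤ 1000000000 * (L.1 - lo.1))
    (hact : lv (rl 1000000000 L) k l ≤ lv (rl 1000000000 lo) k l) :
    clo * k ≤ 1000000000 * l := by
  unfold lv rl at hact
  simp only at hact
  have h4 : ((L.1 : ℝ) * k + L.2 * l) ≤ lo.1 * k + lo.2 * l := by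
    have e : ∀ a b : ℝ, a / ((1000000000 : ℕ) : ℝ) * k + b / ((1000000000 : ℕ) : ℝ) * l
        = (a * k + b * l) / 1000000000 := by intro a b; push_cast; ring
    rw [e, e, div_le_div_iff_of_pos_right (by norm_num)] at hact
    exact hact
  have h5 : L.1 * k + L.2 * l ≤ lo.1 * k + lo.2 * l := by exact_mod_cast h4
  obtain ⟨a, ha⟩ := Nat.exists_eq_add_of_le h1
  obtain ⟨b, hb⟩ := Nat.exists_eq_add_of_lt h2
  have hb0 : lo.2 - L.2 = b + 1 := by omega
  have ha0 : L.1 - lo.1 = a := by omega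
  rw [hb0, ha0] at h3
  have h6 : a * k ≤ (b + 1) * l := by
    rw [ha, hb] at h5
    nlinarith
  have h7 : (b + 1) * (clo * k) ≤ (b + 1) * (1000000000 * l) := by
    calc (b + 1) * (clo * k) = (clo * (b + 1)) * k := by ring
      _ ≤ (1000000000 * a) * k := Nat.mul_le_mul_right _ h3
      _ = 1000000000 * (a * k) := by ring
      _ ≤ 1000000000 * ((b + 1) * l) := Nat.mul_le_mul_left _ h6
      _ = _ := by ring
  exact Nat.le_of_mul_le_mul_left h7 (by omega)

lemma cone_hi {L hi : ℕ × ℕ} {chi k l : ℕ} (h1 : L.1 ≤ hi.1) (h2 : hi.2 < L.2)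
    (h3 : 1000000000 * (hi.1 - L.1) ≤ chi * (L.2 - hi.2))
    (hact : lv (rl 1000000000 L) k l ≤ lv (rl 1000000000 hi) k l) :
    1000000000 * l ≤ chi * k := by
  unfold lv rl at hact
  simp only at hact
  have h4 : ((L.1 : ℝ) * k + L.2 * l) ≤ hi.1 * k + hi.2 * l := by
    have e : ∀ a b : ℝ, a / ((1000000000 : ℕ) : ℝ) * k + b / ((1000000000 : ℕ) : ℝ) * l
        = (a * k + b * l) / 1000000000 := by intro a b; push_cast; ring
    rw [e, e, div_le_div_iff_of_pos_right (by norm_num)] at hact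
    exact hact
  have h5 : L.1 * k + L.2 * l ≤ hi.1 * k + hi.2 * l := by exact_mod_cast h4
  obtain ⟨a, ha⟩ := Nat.exists_eq_add_of_le h1
  obtain ⟨b, hb⟩ := Nat.exists_eq_add_of_lt h2
  have hb0 : L.2 - hi.2 = b + 1 := by omega
  have ha0 : hi.1 - L.1 = a := by omega
  rw [hb0, ha0] at h3
  have h6 : (b + 1) * l ≤ a * k := by
    rw [ha, hb] at h5
    nlinarith
  have h7 : (b + 1) * (1000000000 * l) ≤ (b + 1) * (chi * k) := by
    calc (b + 1) * (1000000000 * l) = 1000000000 * ((b + 1) * l) := by ring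
      _ ≤ 1000000000 * (a * k) := Nat.mul_le_mul_left _ h6
      _ = (1000000000 * a) * k := by ring
      _ ≤ (chi * (b + 1)) * k := Nat.mul_le_mul_right _ h3
      _ = _ := by ring
  exact Nat.le_of_mul_le_mul_left h7 (by omega)

/-- the general step -/
theorem stage_core {LR : List (ℝ × ℝ)} (hle : ∀ L' ∈ LR, L'.1 ≤ L'.2) {P : ℝ × ℝ} (hP : P ∈ LR)
    (hX0 : 0 ≤ P.1) (hY0 : 0 ≤ P.2) {px : ℝ} (hpx0 : 0 ≤ px) (hpx : px < 1 - Real.exp (-P.2))
    {cl : List (ℕ × ℕ)}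
    (hcl : ∀ f ∈ cl, (((f.1 : ℝ) / 1000000000, (f.2 : ℝ) / 1000000000) : ℝ × ℝ) ∈ LR)
    {Q : ℕ → ℕ → Prop}
    (hQ : ∀ k l : ℕ, l ≤ k → (∀ L' ∈ LR, lv P k l ≤ lv L' k l) → Q k l)
    {σ : ℝ} (hσ0 : 0 < σ) (hσ1 : σ < 1)
    (hiv : ∀ ε : ℝ, 0 < ε → ∀ᶠ C : ℝ in Filter.atTop,
      Excl cl P (fun d => px < d ∧ d ≤ 1) Q σ ε C) :
    ∃ C1 : ℝ, StepC C1 LR P := by
  obtain ⟨y, hy⟩ : ∃ y, y = Real.exp (-P.2) := ⟨_, rfl⟩
  rw [← hy] at hpx
  have hy0 : 0 < y := by rw [hy]; exact Real.exp_pos _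
  obtain ⟨gap, hgap⟩ : ∃ gap, gap = 1 - y - px := ⟨_, rfl⟩
  have hgap0 : 0 < gap := by rw [hgap]; linarith
  obtain ⟨ε, hε0, hε1, N, hreg⟩ :=
    Pool.Agent.H111R2.regularize (σ := σ) hσ0 hσ1
  obtain ⟨M, hM⟩ := Filter.eventually_atTop.mp (hiv (ε / 2) (by positivity))
  refine ⟨max M (max N (4 / gap + 2)), 1, ?_⟩
  intro C hC1 hCC k l hk hlk hact IH V _ G S hSk hSl
  by_contra hcon
  push Not at hcon
  have hCM : M ≤ C := (le_max_left _ _).trans hCC
  have hCN : N ≤ C := (le_max_left _ _).trans ((le_max_right _ _).trans hCC)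
  have hCg : 4 / gap + 2 ≤ C := (le_max_right _ _).trans ((le_max_right _ _).trans hCC)
  have hC0 : 0 < C := by linarith
  rcases l with _ | l
  · exact not_noCl_zero _ _ hSl
  obtain ⟨E, hE⟩ : ∃ E, E = Real.exp (lv P k ((l + 1 : ℕ) : ℝ)) := ⟨_, rfl⟩
  have hEeq : E = Real.exp (P.1 * k + P.2 * ((l + 1 : ℕ) : ℝ)) := by
    rw [hE]; rfl
  have hE1 : 1 ≤ E := by
    rw [hEeq]; exact Real.one_le_exp (by positivity)
  have hCE : C ≤ C * E := le_mul_of_one_le_right hC0.le hE1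
  rw [← hE] at hcon
  obtain ⟨U, hUS, hU1, hU2⟩ := exists_trunc S (C * E) (by linarith) hcon
  have hUpos : (0 : ℝ) < U.card := by linarith
  have hUk : NoCl G k U := hSk.mono hUS
  have hUl : NoCl Gᶜ (l + 1) U := hSl.mono hUS
  have hUbig : 4 / gap + 2 ≤ (U.card : ℝ) := by linarith
  have hg2 : 4 ≤ gap * U.card := by
    have h5 : 4 / gap ≤ (U.card : ℝ) := by linarith
    rw [div_le_iff₀ hgap0] at h5
    linarith
  -- the density of `U`
  have hdeg : ∀ x ∈ U, ((Pool.Agent.H111R2.nb Gᶜ x U).card : ℝ) + 1 ≤ U.card * (y + gap / 2) := by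
    intro x hx
    have hb := (IH k l (by omega) V G (H110R2.nb Gᶜ x U) (hUk.mono (H110R2.nb_subset _ _ _))
      (hUl.step hx (H110R2.nb_subset _ _ _) (fun w hw => (H110R2.mem_nb.mp hw).2))
      P hP).1
    have e : Real.exp (lv P k l) = y * E := by
      rw [hy, hE, ← Real.exp_add]
      congr 1
      unfold lv
      push_cast
      ring
    rw [e] at hb
    have e3 : y * (C * E) ≤ y * U.card := mul_le_mul_of_nonneg_left hU1.le hy0.le
    have e4 : ((Pool.Agent.H111R2.nb Gᶜ x U).card : ℝ) = ((H110R2.nb Gᶜ x U).card : ℝ) := rfl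
    rw [e4]
    nlinarith
  have hdens : px < Pool.Agent.H111R2.dens G U := by
    refine Pool.Agent.H111R2.dens_gt G U (y := y + gap / 2) (gap := gap / 2) (F := U.card)
      (by positivity) (by rw [hgap]; linarith) ?_ (by positivity) (by rw [hgap]; ring)
      (by linarith) hdeg
    have e : 2 / (gap / 2) = 4 / gap := by field_simp; norm_num
    rw [e]; linarith
  obtain ⟨S2, hS2U, d, hd1, hd2, hS2card, hdR, hdB⟩ := hreg G U (by linarith)
  have hS2le : (S2.card : ℝ) ≤ 2 * C * E := by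
    have : (S2.card : ℝ) ≤ U.card := by exact_mod_cast card_le_card hS2U
    linarith
  have hS2k : NoCl G k S2 := hUk.mono hS2U
  have hS2l : NoCl Gᶜ (l + 1) S2 := hUl.mono hS2U
  have hkpos : 0 < k := by omega
  have hmono : ∀ x : ℝ, C * Real.exp x ≤ 2 * C * Real.exp x := by
    intro x
    have := Real.exp_pos x
    nlinarith
  -- bounds for the subsets without a red clique of size `a`
  have key1 : ∀ L' ∈ LR, ∀ s : Bool, ∀ a ≤ k, ∀ Y ⊆ S2, NoCl G a Y →
      (Y.card : ℝ) ≤ 2 * C * Real.exp (lv (sw s L') a ((l + 1 : ℕ) : ℝ)) := by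
    intro f hf s a ha Y hY hYa
    rcases lt_or_eq_of_le ha with h4 | h4
    · have h5 := bd_sw (IH a (l + 1) (by omega)) G Y hYa (hS2l.mono hY) hf s
      exact h5.trans (hmono _)
    · have h5 : (Y.card : ℝ) ≤ S2.card := by exact_mod_cast card_le_card hY
      refine (h5.trans hS2le).trans ?_
      apply mul_le_mul_of_nonneg_left _ (by positivity)
      rw [hE]
      apply Real.exp_le_exp.mpr
      rw [h4]
      exact lv_sw_le hle hlk hact hf s
  have key2 : ∀ L' ∈ LR, ∀ s : Bool, ∀ a ≤ l + 1, ∀ Y ⊆ S2, NoCl Gᶜ a Y →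
      (Y.card : ℝ) ≤ 2 * C * Real.exp (lv (sw s L') k a) := by
    intro f hf s a ha Y hY hYa
    rcases lt_or_eq_of_le ha with h4 | h4
    · have h5 := bd_sw (IH k a (by omega)) G Y (hS2k.mono hY) hYa hf s
      exact h5.trans (hmono _)
    · have h5 : (Y.card : ℝ) ≤ S2.card := by exact_mod_cast card_le_card hY
      refine (h5.trans hS2le).trans ?_
      apply mul_le_mul_of_nonneg_left _ (by positivity)
      rw [hE]
      apply Real.exp_le_exp.mpr
      rw [h4]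
      exact lv_sw_le hle hlk hact hf s
  refine hM (2 * C) (by linarith) k (l + 1) hkpos (hQ k (l + 1) hlk hact) V G S2 hS2k hS2l ?_ d
    ⟨lt_of_lt_of_le hdens hd1, hd2⟩ hdR hdB ?_
  · rw [← hEeq]
    have h5 : ε * (C * E) ≤ ε * U.card := mul_le_mul_of_nonneg_left hU1.le hε0.le
    calc ε / 2 * (2 * C * E) = ε * (C * E) := by ring
      _ ≤ _ := h5.trans hS2card
  · intro f hf
    have hf' := hcl f hf
    refine ⟨⟨?_, ?_⟩, ⟨?_, ?_⟩⟩
    · intro a ha Y hY hYa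
      refine (key1 _ hf' false a ha Y hY (fun t ht => hYa t ht)).trans_eq ?_
      unfold lv sw
      simp only [Bool.false_eq_true, if_false]
      congr 2
      ring
    · intro a ha Y hY hYa
      refine (key1 _ hf' true a ha Y hY (fun t ht => hYa t ht)).trans_eq ?_
      unfold lv sw
      simp only [if_true, Prod.swap]
      congr 2
      ring
    · intro a ha Y hY hYa
      refine (key2 _ hf' false a ha Y hY (fun t ht => hYa t ht)).trans_eq ?_
      unfold lv sw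
      simp only [Bool.false_eq_true, if_false]
      congr 2
      ring
    · intro a ha Y hY hYa
      refine (key2 _ hf' true a ha Y hY (fun t ht => hYa t ht)).trans_eq ?_
      unfold lv sw
      simp only [if_true, Prod.swap]
      congr 2
      ring


/-! ### Data -/

/-- data of one end of a book cell: bounds of logarithms and exponentials -/
structure EndD where
  lp1 : ℕ
  lth1 : ℕ
  lp2 : ℕ
  lth2 : ℕ
  e1 : ℕ
  v1 : ℕ
  e2 : ℕ
  v2 : ℕ

/-- a book cell: upper end of the densities, certificate, weights and exponents, the sources of the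
two reservoir bounds, the data of the two ends -/
structure BC where
  hi : ℕ
  ci : ℕ
  sw : Bool
  b1 : ℕ
  b2 : ℕ
  A : ℕ
  B : ℕ
  W : ℕ
  A2 : ℕ
  L1 : ℕ × ℕ
  s1 : Bool
  L2 : ℕ × ℕ
  s2 : Bool
  t : ℕ
  M1 : ℕ × ℕ
  c1 : Bool
  M2 : ℕ × ℕ
  c2 : Bool
  t2 : ℕ
  xa : EndD
  xb : EndD

/-- a cell of densities -/
inductive MCell where
  | ch : Pool.Agent.H111R2.Ival3 → MCell
  | bk : BC → MCell

/-- a row: a line, lines bounding its active cone, the cone `[clo, chi]`, the cells -/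
structure MRow where
  L : ℕ × ℕ
  lo : ℕ × ℕ
  hi : ℕ × ℕ
  top : Bool
  clo : ℕ
  chi : ℕ
  px : ℕ
  cells : List MCell

/-- slack of a book cell at one end of the cone -/
def slk (L : ℕ × ℕ) (b1 b2 A B W A2 c : ℕ) : Bool :=
  Nat.ble (((A + A2) * 1000000000 + (W + B) * c) * 1000000000)
    ((1000000000 + b1 + b2) * (L.1 * 1000000000 + L.2 * c))

/-- check of a book cell for the densities `[a, r.hi]` -/
def bcchk (B0 : ℕ) (cs : List CC) (Ls : List (ℕ × ℕ)) (L : ℕ × ℕ) (clo chi a : ℕ) (r : BC) : Bool :=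
  Nat.blt 1 a && Nat.ble a r.hi && Nat.blt (r.hi + 1) 1000000000 &&
  (match pick cs r.ci r.sw with
  | none => false
  | some c =>
    pkchk2 1000000000 B0 c (a - 1) (1000000000 - a - 1) r.b1 r.b2 r.A r.W r.xa.lp1 r.xa.lth1
      r.xa.lp2 r.xa.lth2 r.xa.e1 r.xa.v1 r.xa.e2 r.xa.v2 &&
    pkchk2 1000000000 B0 c (r.hi - 1) (1000000000 - r.hi - 1) r.b1 r.b2 r.A r.W r.xb.lp1 r.xb.lth1
      r.xb.lp2 r.xb.lth2 r.xb.e1 r.xb.v1 r.xb.e2 r.xb.v2) &&
  domchk 1000000000 Ls r.L1 r.s1 r.L2 r.s2 r.t r.b1 r.A r.B &&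
  domchk 1000000000 Ls r.M1 r.c1 r.M2 r.c2 r.t2 r.b2 r.A2 r.W &&
  slk L r.b1 r.b2 r.A r.B r.W r.A2 clo && slk L r.b1 r.b2 r.A r.B r.W r.A2 chi

/-- check of the cells from the density `a` on -/
def mcells (mb ma B0 : ℕ) (cs : List CC) (Ls : List (ℕ × ℕ)) (L : ℕ × ℕ) (clo chi : ℕ) :
    ℕ → List MCell → Bool
  | a, [] => Nat.ble 1000000000 a
  | a, MCell.ch iv :: l =>
    Pool.Agent.H111R2.Ival3.ok mb ma Ls L.1 L.2 clo chi a iv && mcells mb ma B0 cs Ls L clo chi iv.hi l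
  | a, MCell.bk r :: l => bcchk B0 cs Ls L clo chi a r && mcells mb ma B0 cs Ls L clo chi r.hi l

/-- check of a row -/
def mrowchk (mb ma B0 : ℕ) (cs : List CC) (Ls : List (ℕ × ℕ)) (r : MRow) : Bool :=
  hasL Ls r.lo && (r.top || hasL Ls r.hi) && Nat.ble r.L.1 r.L.2 &&
  Nat.ble r.lo.1 r.L.1 && Nat.blt r.L.2 r.lo.2 &&
  Nat.ble (r.clo * (r.lo.2 - r.L.2)) (1000000000 * (r.L.1 - r.lo.1)) &&
  (if r.top then Nat.ble 1000000000 r.chi else
    Nat.ble r.L.1 r.hi.1 && Nat.blt r.hi.2 r.L.2 &&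
      Nat.ble (1000000000 * (r.hi.1 - r.L.1)) (r.chi * (r.L.2 - r.hi.2))) &&
  Nat.blt r.px 1000000000 &&
  Pool.Agent.H111R2.expGe r.L.2 (1000000000 + 1) (1000000000 - r.px) &&
  mcells mb ma B0 cs Ls r.L r.clo r.chi r.px r.cells

/-- the direction lies in the cone `[clo, chi]` -/
def QC (clo chi : ℕ) (k l : ℕ) : Prop := clo * k ≤ 1000000000 * l ∧ 1000000000 * l ≤ chi * k

lemma hrl (L : ℕ × ℕ) : rl 1000000000 L = ((L.1 : ℝ) / 1000000000, (L.2 : ℝ) / 1000000000) := by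
  unfold rl
  rw [show ((1000000000 : ℕ) : ℝ) = 1000000000 by norm_num]

lemma Excl.mono_tol {cl : List (ℕ × ℕ)} {P : ℝ × ℝ} {Dd : ℝ → Prop} {Q : ℕ → ℕ → Prop}
    {σ σ' ε C : ℝ} (h : Excl cl P Dd Q σ ε C) (hσ : σ' ≤ σ) : Excl cl P Dd Q σ' ε C := by
  intro k l hk hQ V _ G S h1 h2 h3 d hd h4 h5 h6
  have hS : (0 : ℝ) ≤ S.card := Nat.cast_nonneg _
  refine h k l hk hQ V G S h1 h2 h3 d hd (fun x hx => ?_) (fun x hx => ?_) h6
  · refine le_trans ?_ (h4 x hx)
    exact mul_le_mul_of_nonneg_right (by linarith) hS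
  · refine le_trans ?_ (h5 x hx)
    exact mul_le_mul_of_nonneg_right (by linarith) hS

lemma slk_sound {L : ℕ × ℕ} {b1 b2 A B W A2 clo chi : ℕ} (h1 : slk L b1 b2 A B W A2 clo = true)
    (h2 : slk L b1 b2 A B W A2 chi = true) {k l : ℕ} (hk : 0 < k) (hQ : QC clo chi k l) :
    ((A : ℝ) / 1000000000 + (A2 : ℝ) / 1000000000) * k
      + ((W : ℝ) / 1000000000 + (B : ℝ) / 1000000000) * l
      ≤ (1 + (b1 : ℝ) / 1000000000 + (b2 : ℝ) / 1000000000)
        * ((L.1 : ℝ) / 1000000000 * k + (L.2 : ℝ) / 1000000000 * l) := by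
  unfold slk at h1 h2
  rw [Nat.ble_eq] at h1 h2
  obtain ⟨q1, q2⟩ := hQ
  have r1 : (((A : ℝ) + A2) * 1000000000 + (W + B) * clo) * 1000000000
      ≤ (1000000000 + b1 + b2) * (L.1 * 1000000000 + L.2 * clo) := by exact_mod_cast h1
  have r2 : (((A : ℝ) + A2) * 1000000000 + (W + B) * chi) * 1000000000
      ≤ (1000000000 + b1 + b2) * (L.1 * 1000000000 + L.2 * chi) := by exact_mod_cast h2
  have c1 : (clo : ℝ) * k ≤ 1000000000 * l := by exact_mod_cast q1
  have c2 : (1000000000 : ℝ) * l ≤ chi * k := by exact_mod_cast q2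
  have hkr : (0 : ℝ) < k := by exact_mod_cast hk
  obtain ⟨al, hal⟩ : ∃ al : ℝ, al = (1000000000 + b1 + b2) * L.1 - 1000000000 * (A + A2) := ⟨_, rfl⟩
  obtain ⟨ga, hga⟩ : ∃ ga : ℝ, ga = (1000000000 + b1 + b2) * L.2 - 1000000000 * (W + B) := ⟨_, rfl⟩
  have s1 : 0 ≤ al * 1000000000 + ga * clo := by rw [hal, hga]; linarith
  have s2 : 0 ≤ al * 1000000000 + ga * chi := by rw [hal, hga]; linarith
  have s3 := Pool.Agent.H111R2.lin_interp hkr s1 s2 c1 c2
  have s4 : 0 ≤ (al * k + ga * l) / 1000000000000000000 := by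
    apply div_nonneg _ (by norm_num)
    linarith
  have e : (1 + (b1 : ℝ) / 1000000000 + (b2 : ℝ) / 1000000000)
        * ((L.1 : ℝ) / 1000000000 * k + (L.2 : ℝ) / 1000000000 * l)
      - (((A : ℝ) / 1000000000 + (A2 : ℝ) / 1000000000) * k
      + ((W : ℝ) / 1000000000 + (B : ℝ) / 1000000000) * l)
      = (al * k + ga * l) / 1000000000000000000 := by
    rw [hal, hga]; ring
  linarith

/-- the local game from the check, for the certificate with the value `g0` and the error `dl` -/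
theorem pkchk2_pk {N B0 : ℕ} (hN : 0 < N) {c : CC} {g0 dl : ℝ}
    (hT10 : 0 < c.T1) (hT1N : c.T1 < N) (hT20 : 0 < c.T2) (hT2N : c.T2 < N)
    (hl1 : expU N c.l1T1 N (N - c.T1) = true) (hl2 : expU N c.l1T2 N (N - c.T2) = true)
    (hG : (c.G : ℝ) / N ≤ g0 - 2 * dl * C8c (B0 : ℝ))
    {p1 p2 b1 b2 A W lp1 lth1 lp2 lth2 e1 v1 e2 v2 : ℕ}
    (h : pkchk2 N B0 c p1 p2 b1 b2 A W lp1 lth1 lp2 lth2 e1 v1 e2 v2 = true) :
    PK2 ((c.T1 : ℝ) / N) ((c.T2 : ℝ) / N) ((c.wR : ℝ) / N) ((c.wB : ℝ) / N) g0 dl (B0 : ℝ)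
        ((p1 : ℝ) / N) ((p2 : ℝ) / N) ((b1 : ℝ) / N) ((b2 : ℝ) / N) ((A : ℝ) / N)
        ((W : ℝ) / N) := by
  unfold pkchk2 at h
  simp only [Bool.and_eq_true, decide_eq_true_eq] at h
  obtain ⟨⟨⟨⟨⟨⟨⟨⟨⟨⟨⟨⟨⟨⟨⟨⟨⟨⟨h1, h2⟩, h3⟩, h4⟩, h5⟩, h6⟩, h7⟩, h8⟩, h9⟩, h10⟩, h11⟩, h12⟩, h13⟩, h14⟩,
    h15⟩, h16⟩, h17⟩, h18⟩, h19⟩ := h
  have hN' : (0 : ℝ) < N := by exact_mod_cast hN
  have hp1 : 0 < p1 := by omega
  have hp2 : 0 < p2 := by omega
  have hp1' : (0 : ℝ) < p1 := by exact_mod_cast hp1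
  have hp2' : (0 : ℝ) < p2 := by exact_mod_cast hp2
  have hb1' : (0 : ℝ) < b1 := by exact_mod_cast h5
  have hb2' : (0 : ℝ) < b2 := by exact_mod_cast h6
  have h1' : (N : ℝ) < 5 * p1 := by exact_mod_cast h1
  have h3' : (N : ℝ) < 5 * p2 := by exact_mod_cast h3
  have h2' : (p1 : ℝ) < N := by exact_mod_cast h2
  have h4' : (p2 : ℝ) < N := by exact_mod_cast h4
  have x1 := exp_neg_le hN h13 h15
  have x2 := exp_neg_le hN h14 h16
  have h19' : (c.wR : ℝ) * v1 + c.wB * v2 < c.G * N := by exact_mod_cast h19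
  have y1 := expo_le (b1 := b1) (b2 := b2) (A := A) (e1 := e1) hN hp1 hp2 h4 hT20 hT2N hl2 h9 h12 h17
  have y2 := expo_le (b1 := b2) (b2 := b1) (A := W) (e1 := e2) hN hp2 hp1 h2 hT10 hT1N hl1 h10 h11 h18
  have z1 := (Real.exp_le_exp.mpr y1).trans x1
  have z2 := (Real.exp_le_exp.mpr y2).trans x2
  refine ⟨?_, ?_, ?_, ?_, by positivity, by positivity, by positivity, by positivity,
    bcap hN h2 h7, bcap hN h4 h8, ?_⟩
  · rw [lt_div_iff₀ hN']; linarith
  · rw [div_lt_one hN']; exact h2'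
  · rw [lt_div_iff₀ hN']; linarith
  · rw [div_lt_one hN']; exact h4'
  · have w1 := mul_le_mul_of_nonneg_left z1 (by positivity : (0 : ℝ) ≤ (c.wR : ℝ) / N)
    have w2 := mul_le_mul_of_nonneg_left z2 (by positivity : (0 : ℝ) ≤ (c.wB : ℝ) / N)
    have h20 : (c.wR : ℝ) / N * ((v1 : ℝ) / N) + (c.wB : ℝ) / N * ((v2 : ℝ) / N)
        < (c.G : ℝ) / N := by
      have e : (c.wR : ℝ) / N * ((v1 : ℝ) / N) + (c.wB : ℝ) / N * ((v2 : ℝ) / N)
          = ((c.wR : ℝ) * v1 + c.wB * v2) / (N * N) := by field_simp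
      have e' : (c.G : ℝ) / N = (c.G * N) / (N * N) := by field_simp
      rw [e, e']
      exact div_lt_div_of_pos_right h19' (by positivity)
    linarith

lemma bcchk_sound {B0 : ℕ} (hT : TBookThm2) {cs : List CC}
    (hcs : ∀ c ∈ cs, CCOK 1000000000 B0 c) {Ls : List (ℕ × ℕ)} {L : ℕ × ℕ} {clo chi a : ℕ} {r : BC}
    (h : bcchk B0 cs Ls L clo chi a r = true) (ε : ℝ) (hε : 0 < ε) :
    ∀ᶠ C : ℝ in Filter.atTop,
      Excl Ls (rl 1000000000 L) (fun d => (a : ℝ) / 1000000000 ≤ d ∧ d ≤ (r.hi : ℝ) / 1000000000)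
        (QC clo chi) (1 / 4000000000) ε C := by
  unfold bcchk at h
  simp only [Bool.and_eq_true, Nat.blt_eq, Nat.ble_eq] at h
  obtain ⟨⟨⟨⟨⟨⟨⟨h1, h2⟩, h3⟩, h4⟩, h5⟩, h6⟩, h7⟩, h8⟩ := h
  split at h4
  · exact absurd h4 (by simp)
  rename_i c hc
  rw [Bool.and_eq_true] at h4
  have hcok := pick_ok hcs hc
  obtain ⟨hT10, hT1N, hT20, hT2N, hl1, hl2, g0, a1, a2, P, dl, hcert, hG⟩ := id hcok
  have key : ∀ (p : ℕ) (x : EndD), 1 < p → p + 1 < 1000000000 →
      pkchk2 1000000000 B0 c (p - 1) (1000000000 - p - 1) r.b1 r.b2 r.A r.W x.lp1 x.lth1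
        x.lp2 x.lth2 x.e1 x.v1 x.e2 x.v2 = true →
      PK2 ((c.T1 : ℝ) / (1000000000 : ℕ)) ((c.T2 : ℝ) / (1000000000 : ℕ))
        ((c.wR : ℝ) / (1000000000 : ℕ)) ((c.wB : ℝ) / (1000000000 : ℕ)) g0 dl (B0 : ℝ)
        (((p : ℝ) - 1) / 1000000000) (1 - ((p : ℝ) + 1) / 1000000000)
        ((r.b1 : ℝ) / 1000000000) ((r.b2 : ℝ) / 1000000000) ((r.A : ℝ) / 1000000000)
        ((r.W : ℝ) / 1000000000) := by
    intro p x hp1 hp2 hpk
    have hc2 : CCOK 1000000000 B0 c := hcok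
    have := pkchk2_pk (by norm_num) hT10 hT1N hT20 hT2N hl1 hl2 hG hpk
    have e1 : (((p - 1 : ℕ) : ℝ) / ((1000000000 : ℕ) : ℝ)) = ((p : ℝ) - 1) / 1000000000 := by
      rw [Nat.cast_sub hp1.le]; push_cast; ring
    have e2 : (((1000000000 - p - 1 : ℕ) : ℝ) / ((1000000000 : ℕ) : ℝ))
        = 1 - ((p : ℝ) + 1) / 1000000000 := by
      rw [Nat.sub_sub, Nat.cast_sub (by omega)]; push_cast; ring
    rw [e1, e2] at this
    have e3 : ((1000000000 : ℕ) : ℝ) = 1000000000 := by norm_num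
    rw [e3] at this ⊢
    exact this
  have hpa := key a r.xa h1 (by omega) h4.1
  have hpb := key r.hi r.xb (by omega) h3 h4.2
  have hD1 := domchk_sound (N := 1000000000) (by norm_num) h5
  have hD2 := domchk_sound (N := 1000000000) (by norm_num) h6
  have e3 : ((1000000000 : ℕ) : ℝ) = 1000000000 := by norm_num
  rw [e3] at hD1 hD2 hpa hpb hcert
  exact book_excl hT hcert h2 hpa hpb hD1 hD2 (fun k l hk hQ => by
    rw [hrl]
    exact slk_sound h7 h8 hk hQ) ε hε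

/-- a chain interval excludes its densities -/
lemma ival_excl {mb ma : ℕ} (hmb : Pool.Agent.H111R2.MuTab mb) (hma : Pool.Agent.H111R2.AmTab ma)
    {Ls : List (ℕ × ℕ)} {L : ℕ × ℕ} {clo chi a : ℕ} {iv : Pool.Agent.H111R2.Ival3}
    (h : Pool.Agent.H111R2.Ival3.ok mb ma Ls L.1 L.2 clo chi a iv = true) (ε : ℝ) (hε : 0 < ε) :
    ∀ᶠ C : ℝ in Filter.atTop,
      Excl Ls (rl 1000000000 L) (fun d => (a : ℝ) / 1000000000 ≤ d ∧ d ≤ (iv.hi : ℝ) / 1000000000)
        (QC clo chi) (1 / 2000000000) ε C := by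
  unfold Pool.Agent.H111R2.Ival3.ok at h
  filter_upwards [Pool.Agent.H111R2.subs3_sound mb hmb ma hma Ls L.1 L.2 chi a iv.hi iv.pR iv.pB ε hε
    iv.subs clo h] with C hC
  intro k l hk hQ V _ G S hSk hSl hcard d hd hdR hdB hLines
  rw [hrl] at hcard
  exact hC k l hk hQ.1 hQ.2 G S (fun t ht => hSk t ht) (fun t ht => hSl t ht) hcard d hd.1 hd.2
    hdR hdB hLines

lemma mcells_sound {mb ma B0 : ℕ} (hmb : Pool.Agent.H111R2.MuTab mb)
    (hma : Pool.Agent.H111R2.AmTab ma) (hT : TBookThm2) {cs : List CC}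
    (hcs : ∀ c ∈ cs, CCOK 1000000000 B0 c) {Ls : List (ℕ × ℕ)} {L : ℕ × ℕ} {clo chi : ℕ}
    (ε : ℝ) (hε : 0 < ε) : ∀ (cells : List MCell) (a : ℕ),
    mcells mb ma B0 cs Ls L clo chi a cells = true →
    ∀ᶠ C : ℝ in Filter.atTop,
      Excl Ls (rl 1000000000 L) (fun d => (a : ℝ) / 1000000000 < d ∧ d ≤ 1)
        (QC clo chi) (1 / 4000000000) ε C := by
  intro cells
  induction cells with
  | nil =>
    intro a h
    simp only [mcells, Nat.ble_eq] at h
    refine Filter.Eventually.of_forall ?_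
    intro C k l _ _ V _ G S _ _ _ d hd
    exfalso
    have h1 : (1000000000 : ℝ) ≤ a := by exact_mod_cast h
    have h2 := hd.1
    rw [div_lt_iff₀ (by norm_num)] at h2
    linarith [hd.2]
  | cons c cells ih =>
    intro a h
    have comb : ∀ h' : ℕ,
        (∀ᶠ C : ℝ in Filter.atTop,
          Excl Ls (rl 1000000000 L) (fun d => (a : ℝ) / 1000000000 ≤ d ∧ d ≤ (h' : ℝ) / 1000000000)
            (QC clo chi) (1 / 4000000000) ε C) →
        (∀ᶠ C : ℝ in Filter.atTop,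
          Excl Ls (rl 1000000000 L) (fun d => (h' : ℝ) / 1000000000 < d ∧ d ≤ 1)
            (QC clo chi) (1 / 4000000000) ε C) →
        ∀ᶠ C : ℝ in Filter.atTop,
          Excl Ls (rl 1000000000 L) (fun d => (a : ℝ) / 1000000000 < d ∧ d ≤ 1)
            (QC clo chi) (1 / 4000000000) ε C := by
      intro h' e1 e2
      filter_upwards [e1, e2] with C h1 h2
      intro k l hk hQ V _ G S hSk hSl hcard d hd hdR hdB hLines
      rcases le_or_gt d ((h' : ℝ) / 1000000000) with h3 | h3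
      · exact h1 k l hk hQ V G S hSk hSl hcard d ⟨hd.1.le, h3⟩ hdR hdB hLines
      · exact h2 k l hk hQ V G S hSk hSl hcard d ⟨h3, hd.2⟩ hdR hdB hLines
    cases c with
    | ch iv =>
      simp only [mcells, Bool.and_eq_true] at h
      refine comb iv.hi ?_ (ih iv.hi h.2)
      filter_upwards [ival_excl hmb hma h.1 ε hε] with C hC
      exact hC.mono_tol (by norm_num)
    | bk r =>
      simp only [mcells, Bool.and_eq_true] at h
      exact comb r.hi (bcchk_sound hT hcs h.1 ε hε) (ih r.hi h.2)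

/-- **Step of a row.** -/
theorem mrow_sound {mb ma B0 : ℕ} (hmb : Pool.Agent.H111R2.MuTab mb)
    (hma : Pool.Agent.H111R2.AmTab ma) (hT : TBookThm2) {cs : List CC}
    (hcs : ∀ c ∈ cs, CCOK 1000000000 B0 c) {Ls : List (ℕ × ℕ)} (hLs : ∀ L ∈ Ls, L.1 ≤ L.2)
    {r : MRow} (hr : r.L ∈ Ls) (h : mrowchk mb ma B0 cs Ls r = true) :
    ∃ C1 : ℝ, StepC C1 (Ls.map (rl 1000000000)) (rl 1000000000 r.L) := by
  unfold mrowchk at h
  simp only [Bool.and_eq_true, Nat.ble_eq, Nat.blt_eq] at h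
  obtain ⟨⟨⟨⟨⟨⟨⟨⟨⟨hlo, hhi⟩, -⟩, a1⟩, a2⟩, a3⟩, a4⟩, h1⟩, h2⟩, h3⟩ := h
  have hlo' := hasL_sound hlo
  have e2 := Pool.Agent.H111R2.expGe_spec h2
  rw [Nat.cast_sub h1.le] at e2
  push_cast at e2
  have r1 : (r.px:ℝ) + 1 ≤ 1000000000 := by exact_mod_cast h1
  have hpY : (r.px:ℝ) / 1000000000 < 1 - Real.exp (-((r.L.2:ℝ) / 1000000000)) := by
    have h4 : Real.exp (-((r.L.2:ℝ) / 1000000000)) ≤ (1000000000 - r.px) / (1000000000 + 1) := by
      rw [Real.exp_neg, inv_le_comm₀ (Real.exp_pos _) (by apply div_pos <;> linarith), inv_div,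
        div_le_iff₀ (by linarith)]
      linarith
    have h5 : (1000000000 - (r.px:ℝ)) / (1000000000 + 1) < (1000000000 - r.px) / 1000000000 := by
      apply div_lt_div_of_pos_left _ (by norm_num) (by norm_num)
      linarith
    have h6 : (1000000000 - (r.px:ℝ)) / 1000000000 = 1 - (r.px:ℝ) / 1000000000 := by
      rw [sub_div, div_self (by norm_num)]
    linarith
  refine stage_core (px := (r.px:ℝ) / 1000000000) (cl := Ls) (Q := QC r.clo r.chi)
    ?_ (List.mem_map_of_mem hr) ?_ ?_ (by positivity) ?_ ?_ ?_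
    (σ := 1 / 4000000000) (by norm_num) (by norm_num) ?_
  · intro L' hL'
    obtain ⟨L, hL, rfl⟩ := List.mem_map.mp hL'
    rw [hrl]
    simp only
    rw [div_le_div_iff_of_pos_right (by norm_num)]
    exact_mod_cast hLs L hL
  · rw [hrl]; positivity
  · rw [hrl]; positivity
  · rw [hrl]; exact hpY
  · intro f hf
    rw [← hrl]
    exact List.mem_map_of_mem hf
  · intro k l hlk hact
    refine ⟨cone_lo a1 a2 a3 (hact _ (List.mem_map_of_mem hlo')), ?_⟩
    cases htop : r.top with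
    | true =>
      rw [htop] at a4
      simp only [if_true, Nat.ble_eq] at a4
      calc 1000000000 * l ≤ 1000000000 * k := Nat.mul_le_mul_left _ hlk
        _ ≤ r.chi * k := Nat.mul_le_mul_right _ a4
    | false =>
      rw [htop] at a4 hhi
      simp only [Bool.false_eq_true, if_false, Bool.and_eq_true, Nat.ble_eq, Nat.blt_eq] at a4
      simp only [Bool.false_or] at hhi
      have hhi' := hasL_sound hhi
      exact cone_hi a4.1.1 a4.1.2 a4.2 (hact _ (List.mem_map_of_mem hhi'))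
  · intro ε hε
    exact mcells_sound hmb hma hT hcs ε hε r.cells r.px h3

/-- **Bound from mixed rows on top of a black-box family.** -/
theorem mixed_bound {B0 : ℕ} (hT : TBookThm2) {cs : List CC}
    (hcs : ∀ c ∈ cs, CCOK 1000000000 B0 c) {mb ma : ℕ}
    (hmb : Pool.Agent.H111R2.MuTab mb) (hma : Pool.Agent.H111R2.AmTab ma)
    (Old Ls : List (ℕ × ℕ)) (rows : List MRow) (C0 : ℝ)
    (hLs : Ls = Old ++ rows.map MRow.L)
    (hOld : ∀ k l : ℕ, BdAt (Old.map (rl 1000000000)) C0 k l)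
    (hOle : Old.all (fun L => decide (L.1 ≤ L.2)) = true) (hne : rows ≠ [])
    (hrows : ∀ r ∈ rows, mrowchk mb ma B0 cs Ls r = true) :
    ∃ C : ℝ, 1 ≤ C ∧ ∀ k l : ℕ, BdAt (Ls.map (rl 1000000000)) C k l := by
  have hle : ∀ L ∈ Ls, L.1 ≤ L.2 := by
    intro L hL
    rw [hLs, List.mem_append] at hL
    rcases hL with hL | hL
    · have := List.all_eq_true.mp hOle L hL
      simpa using this
    · obtain ⟨r, hr, rfl⟩ := List.mem_map.mp hL
      have h := hrows r hr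
      unfold mrowchk at h
      simp only [Bool.and_eq_true, Nat.ble_eq] at h
      exact h.1.1.1.1.1.1.1.2
  have hex : ∀ r ∈ rows, ∃ C1 : ℝ, StepC C1 (Ls.map (rl 1000000000)) (rl 1000000000 r.L) := by
    intro r hr
    refine mrow_sound hmb hma hT hcs hle ?_ (hrows r hr)
    rw [hLs, List.mem_append]
    exact Or.inr (List.mem_map_of_mem hr)
  have hcom : ∃ C1 : ℝ, ∀ r ∈ rows, StepC C1 (Ls.map (rl 1000000000)) (rl 1000000000 r.L) := by
    have gen : ∀ M : List MRow,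
        (∀ r ∈ M, ∃ C1 : ℝ, StepC C1 (Ls.map (rl 1000000000)) (rl 1000000000 r.L)) →
        ∃ C1 : ℝ, ∀ r ∈ M, StepC C1 (Ls.map (rl 1000000000)) (rl 1000000000 r.L) := by
      intro M
      induction M with
      | nil => intro _; exact ⟨0, fun r hr => absurd hr List.not_mem_nil⟩
      | cons r0 M ih =>
        intro hM
        obtain ⟨C1, h1⟩ := ih (fun r hr => hM r (List.mem_cons_of_mem _ hr))
        obtain ⟨C2, h2⟩ := hM r0 List.mem_cons_self
        refine ⟨max C1 C2, fun r hr => ?_⟩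
        rcases List.mem_cons.mp hr with rfl | hr'
        · exact StepC.mono (le_max_right _ _) h2
        · exact StepC.mono (le_max_left _ _) (h1 r hr')
    exact gen rows hex
  obtain ⟨C1, hC1⟩ := hcom
  apply main_induction_C (max C0 C1)
  · rw [hLs]
    cases rows with
    | nil => exact absurd rfl hne
    | cons r rows => simp
  · intro L hL
    obtain ⟨L', hL', rfl⟩ := List.mem_map.mp hL
    unfold rl
    simp only
    refine ⟨by positivity, ?_⟩
    rw [div_le_div_iff_of_pos_right (by norm_num)]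
    exact_mod_cast hle L' hL'
  · intro L hL
    obtain ⟨L', hL', rfl⟩ := List.mem_map.mp hL
    have hL2 := hL'
    rw [hLs, List.mem_append] at hL2
    rcases hL2 with h | h
    · exact StepC.mono (le_max_left _ _) (StepC.of_bd hOld (List.mem_map_of_mem h))
    · obtain ⟨r, hr, rfl⟩ := List.mem_map.mp h
      exact StepC.mono (le_max_right _ _) (hC1 r hr)

end Pool.Agent.Run7.h214
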