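import Pool.Agent.TH428.RM.NC

set_option autoImplicit false

/-!
# Splitting the quadtree check of a certificate into small parts
-/

namespace Pool.Agent.Run7.h214

open Pool.Agent.TH428.RM

/-- one part: depth, centre, half side -/
structure QB where
  n : ℕ
  X : ℕ
  Y : ℕ
  H : ℕ

/-- the part is checked -/
def QB.chk (q : QD) (b : QB) : Bool := qchk q b.n b.X b.Y b.H

/-- membership of a box in a list of parts -/
def memB (L : List QB) (n X Y H : ℕ) : Bool :=
  L.any (fun b => band (Nat.beq b.n n) (band (Nat.beq b.X X) (band (Nat.beq b.Y Y) (Nat.beq b.H H))))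

/-- the quadtree with parts -/
def qchkB (q : QD) (L : List QB) (n : ℕ) : ℕ → ℕ → ℕ → Bool :=
  Nat.rec (fun X Y H => bor (memB L 0 X Y H) (leafchk q X Y H))
    (fun n f X Y H => bor (memB L (Nat.succ n) X Y H) (bor (leafchk q X Y H)
      (band (Nat.beq (Nat.mul 2 (Nat.div H 2)) H)
        (band (f (Nat.sub X (Nat.div H 2)) (Nat.sub Y (Nat.div H 2)) (Nat.div H 2))
          (band (f (Nat.sub X (Nat.div H 2)) (Nat.add Y (Nat.div H 2)) (Nat.div H 2))
            (band (f (Nat.add X (Nat.div H 2)) (Nat.sub Y (Nat.div H 2)) (Nat.div H 2))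
              (f (Nat.add X (Nat.div H 2)) (Nat.add Y (Nat.div H 2)) (Nat.div H 2)))))))) n

lemma band_true {a b : Bool} : band a b = true ↔ a = true ∧ b = true := by
  cases a <;> cases b <;> simp [band]

lemma bor_true {a b : Bool} : bor a b = true ↔ a = true ∨ b = true := by
  cases a <;> cases b <;> simp [bor]

lemma memB_sound {q : QD} {L : List QB} (hL : ∀ b ∈ L, b.chk q = true) {n X Y H : ℕ}
    (h : memB L n X Y H = true) : qchk q n X Y H = true := by
  unfold memB at h
  obtain ⟨b, hb, h2⟩ := List.any_eq_true.mp h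
  simp only [band_true] at h2
  obtain ⟨h3, h4, h5, h6⟩ := h2
  replace h3 := Nat.eq_of_beq_eq_true h3
  replace h4 := Nat.eq_of_beq_eq_true h4
  replace h5 := Nat.eq_of_beq_eq_true h5
  replace h6 := Nat.eq_of_beq_eq_true h6
  have h7 := hL b hb
  unfold QB.chk at h7
  rw [← h3, ← h4, ← h5, ← h6]
  exact h7

theorem qchkB_sound {q : QD} {L : List QB} (hL : ∀ b ∈ L, b.chk q = true) : ∀ (n X Y H : ℕ),
    qchkB q L n X Y H = true → qchk q n X Y H = true := by
  intro n
  induction n with
  | zero =>
    intro X Y H h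
    have h' : bor (memB L 0 X Y H) (leafchk q X Y H) = true := h
    rcases bor_true.mp h' with h1 | h1
    · exact memB_sound hL h1
    · exact h1
  | succ n ih =>
    intro X Y H h
    have h' : bor (memB L (n + 1) X Y H) (bor (leafchk q X Y H)
      (band (Nat.beq (Nat.mul 2 (Nat.div H 2)) H)
        (band (qchkB q L n (Nat.sub X (Nat.div H 2)) (Nat.sub Y (Nat.div H 2)) (Nat.div H 2))
          (band (qchkB q L n (Nat.sub X (Nat.div H 2)) (Nat.add Y (Nat.div H 2)) (Nat.div H 2))
            (band (qchkB q L n (Nat.add X (Nat.div H 2)) (Nat.sub Y (Nat.div H 2)) (Nat.div H 2))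
              (qchkB q L n (Nat.add X (Nat.div H 2)) (Nat.add Y (Nat.div H 2)) (Nat.div H 2)))))))
        = true := h
    rcases bor_true.mp h' with h1 | h1
    · exact memB_sound hL h1
    · show bor (leafchk q X Y H)
        (band (Nat.beq (Nat.mul 2 (Nat.div H 2)) H)
          (band (qchk q n (Nat.sub X (Nat.div H 2)) (Nat.sub Y (Nat.div H 2)) (Nat.div H 2))
            (band (qchk q n (Nat.sub X (Nat.div H 2)) (Nat.add Y (Nat.div H 2)) (Nat.div H 2))
              (band (qchk q n (Nat.add X (Nat.div H 2)) (Nat.sub Y (Nat.div H 2)) (Nat.div H 2))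
                (qchk q n (Nat.add X (Nat.div H 2)) (Nat.add Y (Nat.div H 2)) (Nat.div H 2)))))) = true
      rw [bor_true] at h1 ⊢
      rcases h1 with h1 | h1
      · exact Or.inl h1
      · right
        rw [band_true, band_true, band_true, band_true] at h1 ⊢
        obtain ⟨a, b, c, d, e⟩ := h1
        exact ⟨a, ih _ _ _ b, ih _ _ _ c, ih _ _ _ d, ih _ _ _ e⟩

end Pool.Agent.Run7.h214
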